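import Pool.Agent.Helper40.PR.Defs2
import Pool.Agent.Helper65.PR.TK4A
import Pool.Agent.Helper54.PR.TK5
import Pool.Agent.Helper26.PR.TK6
import Pool.Agent.Helper55.PR.TK4B

/-!
# Extension of the flag map to all rank one operators (piece CD11A)
-/

namespace PR

open ContinuousLinearMap

section cd11a

variable {Y : Type*} [NormedAddCommGroup Y] [NormedSpace ℂ Y] [CompleteSpace Y]
variable {σ : ℂ}

theorem cd11a_flag (hσ : σ = 1 ∨ σ = -1) (T : Y →L[ℂ] Y) {y : Y} {g : Y →L[ℂ] ℂ} (hg : g y = 0) :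
    sr (bra σ T (rk y g)) = ‖g (T y)‖ := by
  have h : bra σ T (rk y g) = rk (T y) g + rk (σ • y) (g.comp T) := by
    ext z
    simp [bra, smul_smul, mul_comm]
  rw [h, sr_rk_add_rk]
  have e1 : g (T y) + (g.comp T) (σ • y) = g (T y) + σ * g (T y) := by
    simp
  have e2 : g (T y) * (g.comp T) (σ • y) - g (σ • y) * (g.comp T) (T y) = σ * g (T y) ^ 2 := by
    simp [hg]
    ring
  rw [e1, e2]
  rcases hσ with rfl | rfl
  · have h1 := Rt_eq (τ := g (T y) + 1 * g (T y)) (δ := 1 * g (T y) ^ 2) (l1 := g (T y))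
      (l2 := g (T y)) (by ring) (by ring)
    rw [h1, max_self]
  · have h1 := Rt_eq (τ := g (T y) + (-1) * g (T y)) (δ := (-1) * g (T y) ^ 2) (l1 := g (T y))
      (l2 := - g (T y)) (by ring) (by ring)
    rw [h1, norm_neg, max_self]

omit [CompleteSpace Y] in
theorem cd11a_bra_add (T S : Y →L[ℂ] Y) (c : ℂ) :
    bra (-1) T (S + c • (1 : Y →L[ℂ] Y)) = bra (-1) T S := by
  unfold bra
  rw [mul_add, add_mul, mul_smul_comm, smul_mul_assoc, mul_one, one_mul]
  module

omit [CompleteSpace Y] in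
theorem cd11a_bra_smul (T S : Y →L[ℂ] Y) (c : ℂ) :
    bra σ T (c • S) = c • bra σ T S := by
  unfold bra
  rw [mul_smul_comm, smul_mul_assoc, smul_add, smul_comm c σ]

/-- flag test with scalar part -/
theorem cd11a_flag_scalar (hσ : σ = 1 ∨ σ = -1) (T : Y →L[ℂ] Y) {u : Y} {l : Y →L[ℂ] ℂ}
    (hl : l u = 0) (c γ : ℂ) (hγ : σ = 1 → γ = 0) :
    sr (bra σ T (c • rk u l + γ • (1 : Y →L[ℂ] Y))) = ‖c‖ * ‖l (T u)‖ := by
  have h : bra σ T (c • rk u l + γ • (1 : Y →L[ℂ] Y)) = c • bra σ T (rk u l) := by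
    rcases hσ with h1 | h1
    · rw [hγ h1, zero_smul, add_zero, cd11a_bra_smul]
    · subst h1
      rw [cd11a_bra_add, cd11a_bra_smul]
  rw [h, sr_smul, cd11a_flag hσ T hl]

theorem cd11a_indep {V : Type*} [AddCommGroup V] [Module ℂ V] (hV : Dim3 V) {v : V}
    (hv : v ≠ 0) : ∃ v0, LinearIndependent ℂ ![v, v0] := by
  obtain ⟨e, he⟩ := hV
  by_contra hcon
  push Not at hcon
  have h : ∀ x, ∃ a : ℂ, a • v = x := by
    intro x
    have := hcon x
    rw [LinearIndependent.pair_iff' hv] at this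
    push Not at this
    exact this
  obtain ⟨a, ha⟩ := h (e 0)
  obtain ⟨b, hb⟩ := h (e 1)
  have h2 := Fintype.linearIndependent_iff.mp he ![b, -a, 0] (by
    rw [Fin.sum_univ_three]
    simp only [Matrix.cons_val_zero, Matrix.cons_val_one, Matrix.cons_val_two, Matrix.head_cons,
      Matrix.tail_cons, zero_smul, add_zero]
    rw [← ha, ← hb]
    module)
  have hb0 : b = 0 := by simpa using h2 0
  have : e 1 = 0 := by rw [← hb, hb0, zero_smul]
  exact he.ne_zero 1 this

theorem cd_ext1 {V W : Type*} [AddCommGroup V] [Module ℂ V] [AddCommGroup W] [Module ℂ W]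
    (hσ : σ = 1 ∨ σ = -1) (hV : Dim3 V) (hY : Dim3 Y) {B : V →ₗ[ℂ] W →ₗ[ℂ] ℂ} (hB : GoodPair B)
    {Φ : V → W → (Y →L[ℂ] Y)} {π : V → Y} {κ : W → (Y →L[ℂ] ℂ)}
    (hπ : ∀ v, v ≠ 0 → π v ≠ 0) (hκ : ∀ w, w ≠ 0 → κ w ≠ 0)
    (hflag : ∀ v w, v ≠ 0 → w ≠ 0 → B v w = 0 → κ w (π v) = 0 ∧
        ∃ c γ : ℂ, c ≠ 0 ∧ (σ = 1 → γ = 0) ∧ Φ v w = c • rk (π v) (κ w) + γ • (1 : Y →L[ℂ] Y))
    (htest : ∀ v w v' w', B v' w' = 0 →
      sr (bra σ (Φ v w) (Φ v' w')) = ‖B v w'‖ * ‖B v' w‖)
    (hsurj : ∀ (u : Y) (k : Y →L[ℂ] ℂ), u ≠ 0 → k ≠ 0 → k u = 0 → ∃ v w, v ≠ 0 ∧ w ≠ 0 ∧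
      B v w = 0 ∧ (∃ c : ℂ, u = c • π v) ∧ (∃ c : ℂ, k = c • κ w)) :
    (∀ v w, v ≠ 0 → w ≠ 0 → (B v w = 0 ↔ κ w (π v) = 0)) ∧
    ∀ v w, v ≠ 0 → w ≠ 0 → ∃ c γ : ℂ, c ≠ 0 ∧ Φ v w = c • rk (π v) (κ w) + γ • (1 : Y →L[ℂ] Y) := by
  have h1 : ∀ v w, v ≠ 0 → w ≠ 0 → (B v w = 0 ↔ κ w (π v) = 0) := by
    intro v w hv hw
    constructor
    · intro h
      exact (hflag v w hv hw h).1
    · intro h
      by_contra hvw
      obtain ⟨v0, hv0⟩ := cd11a_indep hV hv
      set v1 : V := v0 - (B v0 w / B v w) • v with hv1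
      have hv1w : B v1 w = 0 := by
        rw [hv1, map_sub, map_smul, LinearMap.sub_apply, LinearMap.smul_apply, smul_eq_mul,
          div_mul_cancel₀ _ hvw, sub_self]
      have hind : LinearIndependent ℂ ![v, v1] := by
        rw [LinearIndependent.pair_iff' hv] at hv0 ⊢
        intro a ha
        apply hv0 (a + B v0 w / B v w)
        rw [add_smul, ha, hv1]
        abel
      obtain ⟨w1, hw1⟩ := hB.left 2 ![v, v1] hind ![0, 1]
      have hw10 : B v w1 = 0 := by simpa using hw1 0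
      have hw11 : B v1 w1 = 1 := by simpa using hw1 1
      have hv1ne : v1 ≠ 0 := by
        rintro h0
        rw [h0] at hw11
        simp at hw11
      have hw1ne : w1 ≠ 0 := by
        rintro h0
        rw [h0] at hw11
        simp at hw11
      obtain ⟨hf1, c, γ, hc, hγ, hΦ⟩ := hflag v1 w hv1ne hw hv1w
      obtain ⟨hf2, c', γ', hc', hγ', hΦ'⟩ := hflag v w1 hv hw1ne hw10
      have ht := htest v1 w v w1 hw10
      rw [hΦ', cd11a_flag_scalar hσ _ hf2 _ _ hγ', hΦ, hw11] at ht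
      have h2 : (κ w1) ((c • rk (π v1) (κ w) + γ • (1 : Y →L[ℂ] Y)) (π v)) = 0 := by
        simp [h, hf2]
      rw [h2] at ht
      rw [norm_zero, mul_zero, norm_one, one_mul] at ht
      exact hvw (norm_eq_zero.mp ht.symm)
  refine ⟨h1, ?_⟩
  intro v w hv hw
  by_cases hvw : B v w = 0
  · obtain ⟨-, c, γ, hc, -, hΦ⟩ := hflag v w hv hw hvw
    exact ⟨c, γ, hc, hΦ⟩
  have hκπ : κ w (π v) ≠ 0 := fun h => hvw ((h1 v w hv hw).2 h)
  have hπv := hπ v hv
  -- the zero test
  have hz : ∀ (u : Y) (l : Y →L[ℂ] ℂ), u ≠ 0 → l ≠ 0 → l u = 0 →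
      (l (Φ v w u) = 0 ↔ (l (π v) = 0 ∨ κ w u = 0)) := by
    intro u l hu hl hlu
    obtain ⟨v', w', hv', hw', hvw', ⟨a, ha⟩, ⟨b, hb⟩⟩ := hsurj u l hu hl hlu
    have ha0 : a ≠ 0 := by
      rintro rfl
      exact hu (by rw [ha, zero_smul])
    have hb0 : b ≠ 0 := by
      rintro rfl
      exact hl (by ext z; rw [hb, smul_apply, zero_smul]; rfl)
    obtain ⟨hf, c, γ, hc, hγ, hΦ⟩ := hflag v' w' hv' hw' hvw'
    have ht := htest v w v' w' hvw'
    rw [hΦ, cd11a_flag_scalar hσ _ hf _ _ hγ] at ht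
    have hA : l (Φ v w u) = 0 ↔ κ w' (Φ v w (π v')) = 0 := by
      rw [ha, hb, map_smul, smul_apply, map_smul, smul_eq_mul, smul_eq_mul]
      constructor
      · intro h
        rcases mul_eq_zero.mp h with h | h
        · exact absurd h hb0
        · rcases mul_eq_zero.mp h with h | h
          · exact absurd h ha0
          · exact h
      · intro h
        rw [h, mul_zero, mul_zero]
    have hBB : κ w' (Φ v w (π v')) = 0 ↔ (B v w' = 0 ∨ B v' w = 0) := by
      constructor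
      · intro h
        rw [h, norm_zero, mul_zero] at ht
        rcases mul_eq_zero.mp ht.symm with h | h
        · exact Or.inl (norm_eq_zero.mp h)
        · exact Or.inr (norm_eq_zero.mp h)
      · intro h
        have h0 : ‖B v w'‖ * ‖B v' w‖ = 0 := by
          rcases h with h | h
          · rw [h, norm_zero, zero_mul]
          · rw [h, norm_zero, mul_zero]
        rw [h0] at ht
        rcases mul_eq_zero.mp ht with h | h
        · exact absurd (norm_eq_zero.mp h) hc
        · exact norm_eq_zero.mp h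
    rw [hA, hBB, h1 v w' hv hw', h1 v' w hv' hw]
    have e1 : l (π v) = 0 ↔ κ w' (π v) = 0 := by
      rw [hb, smul_apply, smul_eq_mul]
      constructor
      · intro h
        rcases mul_eq_zero.mp h with h | h
        · exact absurd h hb0
        · exact h
      · intro h
        rw [h, mul_zero]
    have e2 : κ w u = 0 ↔ κ w (π v') = 0 := by
      rw [ha, map_smul, smul_eq_mul]
      constructor
      · intro h
        rcases mul_eq_zero.mp h with h | h
        · exact absurd h ha0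
        · exact h
      · intro h
        rw [h, mul_zero]
    rw [e1, e2]
  -- the range
  have hspan : ∀ y, Φ v w y ∈ Submodule.span ℂ {y, π v} := by
    intro y
    by_contra hy
    have hy0 : y ≠ 0 := by
      rintro rfl
      apply hy
      rw [map_zero]
      exact Submodule.zero_mem _
    have hrange : Set.range ![y, π v] = {y, π v} := by
      simp [Matrix.range_cons, Set.pair_comm]
    obtain ⟨l, hl, hl1⟩ := exists_dual_sep (v := ![y, π v]) (w := Φ v w y) (by rwa [hrange])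
    have hl0 : l y = 0 := by simpa using hl 0
    have hl2 : l (π v) = 0 := by simpa using hl 1
    have hlne : l ≠ 0 := by
      rintro rfl
      simp at hl1
    have := (hz y l hy0 hlne hl0).2 (Or.inl hl2)
    rw [hl1] at this
    exact one_ne_zero this
  obtain ⟨γ, h, hh⟩ := scalar_mod_vector (Φ v w) (π v) hY hspan
  -- separation of `π v` from a vector
  have hsep : ∀ u, (¬ ∃ a : ℂ, a • u = π v) → u ≠ 0 → ∃ l : Y →L[ℂ] ℂ, l ≠ 0 ∧ l u = 0 ∧ l (π v) = 1 := by
    intro u hu hu0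
    have hli : LinearIndependent ℂ ![u, π v] := by
      rw [LinearIndependent.pair_iff' hu0]
      intro a ha
      exact hu ⟨a, ha⟩
    obtain ⟨l, hl⟩ := exists_dual_fin hli ![0, 1]
    have hl0 : l u = 0 := by simpa using hl 0
    have hl1 : l (π v) = 1 := by simpa using hl 1
    refine ⟨l, ?_, hl0, hl1⟩
    rintro rfl
    simp at hl1
  have hker : ∀ u, κ w u = 0 → h u = 0 := by
    intro u hu
    by_cases hu0 : u = 0
    · rw [hu0, map_zero]
    · obtain ⟨l, hl, hlu, hlπ⟩ := hsep u (by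
        rintro ⟨a, ha⟩
        apply hκπ
        rw [← ha, map_smul, hu, smul_zero]) hu0
      have h3 := (hz u l hu0 hl hlu).2 (Or.inr hu)
      rw [hh] at h3
      simpa [hlu, hlπ] using h3
  obtain ⟨c, hc⟩ : ∃ c : ℂ, h = c • κ w := by
    have := mem_span_of_ker (f := ![κ w]) (g := h) (fun x hx => hker x (by simpa using hx 0))
    rw [show Set.range ![κ w] = {κ w} by simp [Matrix.range_cons]] at this
    obtain ⟨c, hc⟩ := Submodule.mem_span_singleton.mp this
    exact ⟨c, hc.symm⟩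
  refine ⟨c, γ, ?_, ?_⟩
  · rintro rfl
    replace hc : h = 0 := by ext z; rw [hc, smul_apply, zero_smul]; rfl
    -- a vector not parallel to `π v` where `κ w` does not vanish
    obtain ⟨u0, hu0⟩ := cd11a_indep hY hπv
    have hex : ∃ u, (¬ ∃ a : ℂ, a • u = π v) ∧ κ w u ≠ 0 := by
      rw [LinearIndependent.pair_iff' hπv] at hu0
      by_cases h0 : κ w u0 = 0
      · refine ⟨u0 + π v, ?_, ?_⟩
        · rintro ⟨a, ha⟩
          have ha0 : a ≠ 0 := by
            rintro rfl
            rw [zero_smul] at ha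
            exact hπv ha.symm
          have h5 : u0 + π v = a⁻¹ • π v := by
            nth_rewrite 2 [← ha]
            rw [smul_smul, inv_mul_cancel₀ ha0, one_smul]
          apply hu0 (a⁻¹ - 1)
          rw [sub_smul, one_smul, ← h5, add_sub_cancel_right]
        · rw [map_add, h0, zero_add]
          exact hκπ
      · refine ⟨u0, ?_, h0⟩
        rintro ⟨a, ha⟩
        have ha0 : a ≠ 0 := by
          rintro rfl
          rw [zero_smul] at ha
          exact hπv ha.symm
        apply hu0 a⁻¹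
        rw [← ha, smul_smul, inv_mul_cancel₀ ha0, one_smul]
    obtain ⟨u, hu1, hu2⟩ := hex
    have hune : u ≠ 0 := by
      rintro rfl
      exact hu2 (map_zero _)
    obtain ⟨l, hl, hlu, hlπ⟩ := hsep u hu1 hune
    have h4 := (hz u l hune hl hlu).1 (by rw [hh, hc]; simp [hlu])
    rcases h4 with h4 | h4
    · rw [hlπ] at h4
      exact one_ne_zero h4
    · exact hu2 h4
  · rw [hh, hc]
    ext z
    simp [smul_smul, add_comm]

end cd11a

/-- the two pairings -/
theorem goodPair_dual (X : Type*) [NormedAddCommGroup X] [NormedSpace ℂ X] :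
    GoodPair (V := X →L[ℂ] ℂ) (W := X)
      (LinearMap.mk₂ ℂ (fun f x => f x) (fun _ _ _ => rfl) (fun _ _ _ => rfl)
        (fun f x y => map_add f x y) (fun c f x => map_smul f c x)) ∧
    GoodPair (V := X) (W := X →L[ℂ] ℂ)
      (LinearMap.mk₂ ℂ (fun x f => f x) (fun x y f => map_add f x y) (fun c x f => map_smul f c x)
        (fun _ _ _ => rfl) (fun _ _ _ => rfl)) := by
  refine ⟨⟨?_, ?_⟩, ⟨?_, ?_⟩⟩
  · intro n v hv c
    exact exists_vec_fin hv c
  · intro n v hv c
    exact exists_dual_fin hv c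
  · intro n v hv c
    exact exists_dual_fin hv c
  · intro n v hv c
    exact exists_vec_fin hv c

end PR
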